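import Mathlib

set_option autoImplicit false
open Filter Topology Finset

namespace Pool.Agent.H977_dr

/-- The recursion in the form of the problem, for m = 2. -/
noncomputable def pstep (q : ℕ → ℝ) (k : ℕ) : ℝ :=
  (∑ x : Fin 2 → Fin (k + 2), if (∑ i, (x i : ℕ)) = k + 1 then ∏ i, q (x i) else 0)
    + (if k = 0 then q 0 ^ 2 else 0)

/-- convolution -/
noncomputable def conv (f g : ℕ → ℝ) (j : ℕ) : ℝ := ∑ ab ∈ antidiagonal j, f ab.1 * g ab.2

lemma sum_fin_two (q : ℕ → ℝ) (k : ℕ) :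
    (∑ x : Fin 2 → Fin (k + 2), if (∑ i, (x i : ℕ)) = k + 1 then ∏ i, q (x i) else 0)
      = conv q q (k + 1) := by
  have h1 : (∑ x : Fin 2 → Fin (k + 2), if (∑ i, (x i : ℕ)) = k + 1 then ∏ i, q (x i) else 0)
      = ∑ y : Fin (k + 2) × Fin (k + 2),
          if (y.1 : ℕ) + (y.2 : ℕ) = k + 1 then q y.1 * q y.2 else 0 := by
    rw [← (finTwoArrowEquiv (Fin (k + 2))).symm.sum_comp]
    refine Finset.sum_congr rfl ?_
    intro y _
    simp [finTwoArrowEquiv]
  rw [h1, Fintype.sum_prod_type]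
  unfold conv
  rw [Finset.Nat.sum_antidiagonal_eq_sum_range_succ (fun a b => q a * q b), Finset.sum_range]
  refine Finset.sum_congr rfl ?_
  intro a _
  have ha : (a : ℕ) ≤ k + 1 := by omega
  rw [Finset.sum_eq_single (⟨k + 1 - a, by omega⟩ : Fin (k + 2))]
  · rw [if_pos]
    simp only
    omega
  · intro b _ hb
    rw [if_neg]
    intro hcon
    apply hb
    apply Fin.ext
    show (b : ℕ) = k + 1 - (a : ℕ)
    have hcon' : (a : ℕ) + (b : ℕ) = k + 1 := hcon
    omega
  · intro h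
    exact absurd (Finset.mem_univ _) h

lemma pstep_eq (q : ℕ → ℝ) (k : ℕ) :
    pstep q k = conv q q (k + 1) + (if k = 0 then q 0 ^ 2 else 0) := by
  unfold pstep
  rw [sum_fin_two]

lemma hasSum_conv {F G : ℕ → ℝ} {A B : ℝ} (hF : HasSum F A) (hG : HasSum G B) :
    HasSum (conv F G) (A * B) := by
  have h1 : Summable (fun x => ‖F x‖) := hF.summable.norm
  have h2 : Summable (fun x => ‖G x‖) := hG.summable.norm
  have h3 := tsum_mul_tsum_eq_tsum_sum_antidiagonal_of_summable_norm h1 h2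
  have h4 := (summable_norm_sum_mul_antidiagonal_of_summable_norm h1 h2).of_norm
  rw [hF.tsum_eq, hG.tsum_eq] at h3
  rw [h3]
  exact h4.hasSum

lemma conv_nonneg {F G : ℕ → ℝ} (hF0 : ∀ k, 0 ≤ F k) (hG0 : ∀ k, 0 ≤ G k) (j : ℕ) :
    0 ≤ conv F G j :=
  Finset.sum_nonneg (fun _ _ => mul_nonneg (hF0 _) (hG0 _))

lemma conv_pow (f g : ℕ → ℝ) (r : ℝ) (j : ℕ) :
    conv f g j * r ^ j = conv (fun k => f k * r ^ k) (fun k => g k * r ^ k) j := by
  unfold conv
  rw [Finset.sum_mul]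
  refine Finset.sum_congr rfl ?_
  intro ab hab
  rw [HasAntidiagonal.mem_antidiagonal] at hab
  rw [← hab, pow_add]
  ring

lemma conv_index (F G : ℕ → ℝ) (j : ℕ) :
    (j : ℝ) * conv F G j = conv (fun k => (k : ℝ) * F k) G j + conv F (fun k => (k : ℝ) * G k) j := by
  unfold conv
  rw [Finset.mul_sum, ← Finset.sum_add_distrib]
  refine Finset.sum_congr rfl ?_
  intro ab hab
  rw [HasAntidiagonal.mem_antidiagonal] at hab
  rw [← hab]
  push_cast
  ring

lemma conv_zero (F G : ℕ → ℝ) : conv F G 0 = F 0 * G 0 := by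
  unfold conv
  simp

structure Inv (q : ℕ → ℝ) (a : ℝ) : Prop where
  nonneg : ∀ k, 0 ≤ q k
  one : HasSum q 1
  two : HasSum (fun k => q k * 2 ^ k) a
  crit : HasSum (fun k : ℕ => (k : ℝ) * (q k * 2 ^ k)) a

lemma hasSum_shift {f : ℕ → ℝ} {A : ℝ} (h : HasSum f A) : HasSum (fun k => f (k + 1)) (A - f 0) := by
  have := (hasSum_nat_add_iff' 1).2 h
  simpa using this

lemma hasSum_single_zero (x : ℝ) (w : ℕ → ℝ) (hw : w 0 = 1) :
    HasSum (fun k : ℕ => (if k = 0 then x else 0) * w k) x := by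
  have := hasSum_single (f := fun k : ℕ => (if k = 0 then x else 0) * w k) 0 (by
    intro b hb
    rw [if_neg hb, zero_mul])
  simpa [hw] using this

lemma Inv.step {q : ℕ → ℝ} {a : ℝ} (h : Inv q a) : Inv (pstep q) ((a ^ 2 + q 0 ^ 2) / 2) := by
  have hq2 : ∀ k, 0 ≤ q k * 2 ^ k := fun k => mul_nonneg (h.nonneg k) (by positivity)
  have hkq2 : ∀ k : ℕ, 0 ≤ (k : ℝ) * (q k * 2 ^ k) :=
    fun k => mul_nonneg (Nat.cast_nonneg _) (hq2 k)
  constructor
  · intro k
    rw [pstep_eq]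
    have h1 := conv_nonneg h.nonneg h.nonneg (k + 1)
    have h2 : 0 ≤ (if k = 0 then q 0 ^ 2 else 0) := by split_ifs <;> positivity
    linarith
  · have h1 := hasSum_shift (hasSum_conv h.one h.one)
    rw [conv_zero] at h1
    have h2 := hasSum_single_zero (q 0 ^ 2) (fun _ => 1) rfl
    have h3 := h1.add h2
    have e : (1:ℝ) * 1 - q 0 * q 0 + q 0 ^ 2 = 1 := by ring
    rw [e] at h3
    refine h3.congr_fun ?_
    intro k
    rw [pstep_eq, mul_one]
  · have h1 := hasSum_shift (hasSum_conv h.two h.two)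
    rw [conv_zero] at h1
    have h2 := hasSum_single_zero (q 0 ^ 2) (fun k => 2 ^ k) (by norm_num)
    have h3 := (h1.div_const 2).add h2
    have e : (a * a - q 0 * 2 ^ 0 * (q 0 * 2 ^ 0)) / 2 + q 0 ^ 2 = (a ^ 2 + q 0 ^ 2) / 2 := by ring
    rw [e] at h3
    refine h3.congr_fun ?_
    intro k
    rw [pstep_eq, ← conv_pow]
    rw [pow_succ]
    ring
  · have h1 := (hasSum_conv h.crit h.two).add (hasSum_conv h.two h.crit)
    have h1' : HasSum (fun j : ℕ => (j : ℝ) * conv (fun k => q k * 2 ^ k) (fun k => q k * 2 ^ k) j)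
        (a * a + a * a) := by
      refine h1.congr_fun ?_
      intro j
      rw [conv_index]
    have h2 := hasSum_shift h1'
    have h3 := hasSum_shift (hasSum_conv h.two h.two)
    rw [conv_zero] at h3
    have h4 := (h2.sub h3).div_const 2
    have e : ((a * a + a * a - ((0:ℕ) : ℝ) * conv (fun k => q k * 2 ^ k) (fun k => q k * 2 ^ k) 0)
        - (a * a - q 0 * 2 ^ 0 * (q 0 * 2 ^ 0))) / 2 = (a ^ 2 + q 0 ^ 2) / 2 := by
      push_cast
      ring
    rw [e] at h4
    refine h4.congr_fun ?_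
    intro k
    rw [pstep_eq, ← conv_pow]
    by_cases hk : k = 0
    · subst hk
      simp
    · rw [if_neg hk]
      push_cast
      rw [pow_succ]
      ring

/-- critical mass bound -/
lemma Inv.le_two {q : ℕ → ℝ} {a : ℝ} (h : Inv q a) : a ≤ 2 := by
  have h1 := h.crit.sub h.two
  rw [sub_self] at h1
  have h2 : HasSum (fun k : ℕ => 2 * (if k = 0 then q 0 else 0) + 2 * (if k = 1 then q 1 else 0)) 
      (2 * q 0 + 2 * q 1) := by
    refine HasSum.add ?_ ?_
    · exact (hasSum_ite_eq 0 (q 0)).mul_left 2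
    · exact (hasSum_ite_eq 1 (q 1)).mul_left 2
  have h3 := h1.add h2
  have h4 : a ≤ 0 + (2 * q 0 + 2 * q 1) := by
    refine hasSum_le ?_ h.two h3
    intro k
    have hk := h.nonneg k
    rcases k with _ | _ | k
    · norm_num
      linarith
    · norm_num
      linarith
    · have : (0:ℝ) ≤ q (k + 2) * 2 ^ (k + 2) := mul_nonneg hk (by positivity)
      simp only [Nat.add_eq_zero_iff]
      norm_num
      have h5 : (0:ℝ) ≤ (k:ℝ) := Nat.cast_nonneg _
      nlinarith
  have h5 : q 0 + q 1 ≤ 1 := by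
    have := sum_le_hasSum {0, 1} (fun k _ => h.nonneg k) h.one
    simpa using this
  linarith

lemma Inv.one_le {q : ℕ → ℝ} {a : ℝ} (h : Inv q a) : 1 ≤ a := by
  refine hasSum_le ?_ h.one h.two
  intro k
  have h1 : (1:ℝ) ≤ 2 ^ k := one_le_pow₀ (by norm_num)
  have := h.nonneg k
  nlinarith

end Pool.Agent.H977_dr
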