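import Mathlib
import Pool.Agent.H977_dr.Basic

set_option autoImplicit false
open Filter Topology Finset

namespace Pool.Agent.H977_dr

lemma conv_comm (f g : ℕ → ℝ) (j : ℕ) : conv f g j = conv g f j := by
  unfold conv
  rw [← Finset.Nat.sum_antidiagonal_swap]
  refine Finset.sum_congr rfl ?_
  intro ab _
  simp only [Prod.fst_swap, Prod.snd_swap]
  ring

lemma conv_mono {f f' g g' : ℕ → ℝ} (hf : ∀ k, f k ≤ f' k) (hg : ∀ k, g k ≤ g' k)
    (hg0 : ∀ k, 0 ≤ g k) (hf0 : ∀ k, 0 ≤ f' k) (j : ℕ) : conv f g j ≤ conv f' g' j := by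
  unfold conv
  refine Finset.sum_le_sum ?_
  intro ab _
  exact mul_le_mul (hf _) (hg _) (hg0 _) (hf0 _)

lemma conv_smul_left (c : ℝ) (f g : ℕ → ℝ) (j : ℕ) :
    conv (fun k => c * f k) g j = c * conv f g j := by
  unfold conv
  rw [Finset.mul_sum]
  refine Finset.sum_congr rfl ?_
  intro ab _
  ring

/-- marked mass -/
noncomputable def vv (q : ℕ → ℕ → ℝ) (N : ℕ) : ℕ → ℕ → ℝ
  | 0 => fun k => if N ≤ k then q 0 k else 0
  | (n + 1) => fun k => 2 * conv (vv q N n) (q n) (k + 1)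

structure Sys (q : ℕ → ℕ → ℝ) (a : ℕ → ℝ) : Prop where
  inv : ∀ n, Inv (q n) (a n)
  step : ∀ n k, q (n + 1) k = pstep (q n) k
  arec : ∀ n, a (n + 1) = (a n ^ 2 + q n 0 ^ 2) / 2

variable {q : ℕ → ℕ → ℝ} {a : ℕ → ℝ}

lemma vv_nonneg (h : Sys q a) (N n k : ℕ) : 0 ≤ vv q N n k := by
  induction n generalizing k with
  | zero =>
    simp only [vv]
    split_ifs
    · exact (h.inv 0).nonneg k
    · exact le_rfl
  | succ n ih =>
    simp only [vv]
    have := conv_nonneg ih (h.inv n).nonneg (k + 1)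
    linarith

lemma vv_support (N n k : ℕ) (hk : k + n < N) : vv q N n k = 0 := by
  induction n generalizing k with
  | zero =>
    simp only [vv]
    rw [if_neg (by omega)]
  | succ n ih =>
    simp only [vv]
    unfold conv
    rw [Finset.sum_eq_zero, mul_zero]
    intro ab hab
    rw [HasAntidiagonal.mem_antidiagonal] at hab
    rw [ih ab.1 (by omega), zero_mul]

lemma vv_bound (h : Sys q a) (N n k : ℕ) (hn : n ≤ N) :
    ((N : ℝ) - n) * vv q N n k ≤ k * q n k := by
  induction n generalizing k with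
  | zero =>
    simp only [vv]
    have hq := (h.inv 0).nonneg k
    have hk0 : (0:ℝ) ≤ (k : ℝ) := Nat.cast_nonneg _
    split_ifs with hN
    · have : (N : ℝ) ≤ k := by exact_mod_cast hN
      push_cast
      nlinarith
    · rw [mul_zero]; positivity
  | succ n ih =>
    have hq := (h.inv (n + 1)).nonneg k
    have hk0 : (0:ℝ) ≤ (k : ℝ) := Nat.cast_nonneg _
    by_cases hlt : k + 1 + n < N
    · rw [vv_support N (n + 1) k (by omega), mul_zero]
      positivity
    · have hqn := (h.inv n).nonneg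
      have hn' : n ≤ N := by omega
      have hNn : (1:ℝ) ≤ (N:ℝ) - n := by
        have : (n:ℝ) + 1 ≤ N := by exact_mod_cast hn
        linarith
      have hkN : (N:ℝ) - n ≤ k + 1 := by
        have : N ≤ k + 1 + n := by omega
        have : (N:ℝ) ≤ k + 1 + n := by exact_mod_cast this
        linarith
      have h1 : ((N:ℝ) - n) * (2 * conv (vv q N n) (q n) (k + 1))
          ≤ ((k:ℝ) + 1) * conv (q n) (q n) (k + 1) := by
        have e1 : ((N:ℝ) - n) * (2 * conv (vv q N n) (q n) (k + 1))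
            = conv (fun j => ((N:ℝ) - n) * vv q N n j) (q n) (k + 1)
              + conv (q n) (fun j => ((N:ℝ) - n) * vv q N n j) (k + 1) := by
          rw [conv_comm (q n), conv_smul_left]
          ring
        have e2 := conv_index (q n) (q n) (k + 1)
        push_cast at e2
        rw [e1, e2]
        refine add_le_add ?_ ?_
        · exact conv_mono (fun j => ih j hn') (fun _ => le_rfl) hqn
            (fun j => mul_nonneg (Nat.cast_nonneg _) (hqn j)) _
        · refine conv_mono (fun _ => le_rfl) (fun j => ih j hn') ?_ hqn _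
          intro j
          exact mul_nonneg (by linarith) (vv_nonneg h N n j)
      have hc : conv (q n) (q n) (k + 1) ≤ q (n + 1) k := by
        rw [h.step, pstep_eq]
        have : 0 ≤ (if k = 0 then q n 0 ^ 2 else 0) := by split_ifs <;> positivity
        linarith
      have hc0 := conv_nonneg hqn hqn (k + 1)
      have hv0 := vv_nonneg h N (n + 1) k
      simp only [vv] at hv0 ⊢
      set V := 2 * conv (vv q N n) (q n) (k + 1) with hV
      set c := conv (q n) (q n) (k + 1) with hcdef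
      push_cast
      -- (N-n-1) V ≤ k c
      have h2 : ((N:ℝ) - n) * (((N:ℝ) - (n + 1)) * V) ≤ ((N:ℝ) - n) * (k * c) := by
        have h3 : ((N:ℝ) - (n + 1)) * (((N:ℝ) - n) * V) ≤ ((N:ℝ) - (n + 1)) * (((k:ℝ) + 1) * c) :=
          mul_le_mul_of_nonneg_left h1 (by linarith)
        have h4 : ((N:ℝ) - (n + 1)) * (((k:ℝ) + 1) * c) ≤ ((N:ℝ) - n) * (k * c) := by
          have h5 : ((N:ℝ) - (n + 1)) * ((k:ℝ) + 1) ≤ ((N:ℝ) - n) * k := by nlinarith
          nlinarith
        calc ((N:ℝ) - n) * (((N:ℝ) - (n + 1)) * V) = ((N:ℝ) - (n + 1)) * (((N:ℝ) - n) * V) := by ring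
          _ ≤ _ := h3.trans h4
      have h6 : ((N:ℝ) - (n + 1)) * V ≤ k * c := le_of_mul_le_mul_left h2 (by linarith)
      exact h6.trans (mul_le_mul_of_nonneg_left hc hk0)

lemma vv_hasSum (h : Sys q a) (N : ℕ) {Q : ℝ} (hQ : HasSum (fun k => vv q N 0 k * 2 ^ k) Q)
    (n : ℕ) (hn : n ≤ N) :
    HasSum (fun k => vv q N n k * 2 ^ k) (Q * ∏ i ∈ range n, a i) := by
  induction n with
  | zero => simpa using hQ
  | succ n ih =>
    have ih' := ih (by omega)
    have h1 := hasSum_shift (hasSum_conv ih' (h.inv n).two)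
    rw [conv_zero, vv_support N n 0 (by omega)] at h1
    simp only [zero_mul, sub_zero] at h1
    rw [Finset.prod_range_succ, ← mul_assoc]
    refine h1.congr_fun ?_
    intro k
    rw [← conv_pow]
    simp only [vv]
    rw [pow_succ]
    ring

lemma jump_ineq (h : Sys q a) (N : ℕ) {Q : ℝ} (hQ : HasSum (fun k => vv q N 0 k * 2 ^ k) Q)
    (n : ℕ) (hn : n ≤ N) : ((N:ℝ) - n) * (Q * ∏ i ∈ range n, a i) ≤ 2 := by
  have h1 := (vv_hasSum h N hQ n hn).mul_left ((N:ℝ) - n)
  refine le_trans (hasSum_le ?_ h1 (h.inv n).crit) (h.inv n).le_two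
  intro k
  have := vv_bound h N n k hn
  have h2 : (0:ℝ) ≤ 2 ^ k := by positivity
  calc ((N:ℝ) - n) * (vv q N n k * 2 ^ k) = (((N:ℝ) - n) * vv q N n k) * 2 ^ k := by ring
    _ ≤ (k * q n k) * 2 ^ k := by gcongr
    _ = _ := by ring

lemma riccati_arith {n z : ℝ} (hn : 100 ≤ n) (hz0 : 0 ≤ z) (hz : z ≤ 6 / 5) :
    (n + 1) * (z / n + (z / n) ^ 2 / 2 - (5 / 2) / n ^ 2 + ((5 / 2) / n ^ 2) ^ 2 / 2)
      ≤ z - (1 / 10) / n := by
  have hnpos : (0:ℝ) < n := by linarith
  have h3 : (n + 1) * (z / n + (z / n) ^ 2 / 2 - (5 / 2) / n ^ 2 + ((5 / 2) / n ^ 2) ^ 2 / 2)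
      = z + (z + z ^ 2 / 2 - 5 / 2) / n + (z ^ 2 / 2 - 5 / 2) / n ^ 2
        + (25 / 8) * (n + 1) / n ^ 4 := by
    field_simp
    ring
  rw [h3]
  have h4 : (z + z ^ 2 / 2 - 5 / 2) / n ≤ (-(1 / 2)) / n := by
    apply div_le_div_of_nonneg_right _ hnpos.le
    nlinarith
  have h5 : (z ^ 2 / 2 - 5 / 2) / n ^ 2 ≤ 0 := by
    apply div_nonpos_of_nonpos_of_nonneg
    · nlinarith
    · positivity
  have h6 : (25 / 8) * (n + 1) / n ^ 4 ≤ (1 / 10) / n := by
    rw [div_le_div_iff₀ (by positivity) hnpos]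
    have h7 : (10000:ℝ) ≤ n ^ 2 := by nlinarith
    have h8 : (25 / 8) * (n + 1) * n ≤ 10 * n ^ 2 := by nlinarith
    have h9 : 10 * n ^ 2 ≤ 1 / 10 * (n ^ 2 * n ^ 2) := by nlinarith
    have h10 : n ^ 4 = n ^ 2 * n ^ 2 := by ring
    rw [h10]
    linarith
  have h7 : (-(1 / 2)) / n = - ((1 / 2) / n) := by ring
  have h8 : (1 / 10) / n + (1 / 10) / n ≤ (1 / 2) / n := by
    rw [← add_div]
    apply div_le_div_of_nonneg_right _ hnpos.le
    norm_num
  linarith

/-- Riccati lower bound: if the survival mass is at least `(5/2)/n^2` eventually then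
`a n - 1 ≥ (6/5)/n` eventually. -/
lemma riccati (h : Sys q a) {n0 : ℕ}
    (hq : ∀ n, n0 ≤ n → (5 / 2 : ℝ) / (n:ℝ) ^ 2 ≤ 1 - q n 0) :
    ∃ n1 : ℕ, ∀ n, n1 ≤ n → (6 / 5 : ℝ) / (n:ℝ) ≤ a n - 1 := by
  by_contra hcon
  push Not at hcon
  obtain ⟨m, hm, hlt⟩ := hcon (max n0 100)
  have hm0 : n0 ≤ m := (le_max_left _ _).trans hm
  have hm1 : 100 ≤ m := (le_max_right _ _).trans hm
  set y : ℕ → ℝ := fun n => (n:ℝ) * (a n - 1) with hy
  have hy0 : ∀ n, 0 ≤ y n := fun n =>
    mul_nonneg (Nat.cast_nonneg _) (by linarith [(h.inv n).one_le])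
  have hstep : ∀ n, m ≤ n → y n ≤ 6 / 5 → y (n + 1) ≤ y n - (1 / 10) / n := by
    intro n hn hyn
    have hn100 : (100:ℝ) ≤ n := by exact_mod_cast hm1.trans hn
    have hnpos : (0:ℝ) < n := by linarith
    have hqn := hq n (hm0.trans hn)
    have hq1 : 0 ≤ q n 0 := (h.inv n).nonneg 0
    set t : ℝ := (5 / 2 : ℝ) / (n:ℝ) ^ 2 with ht
    have ht0 : 0 < t := by positivity
    have ht1 : q n 0 ≤ 1 - t := by linarith
    have hsq : q n 0 ^ 2 ≤ (1 - t) ^ 2 := by
      apply pow_le_pow_left₀ hq1 ht1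
    have hrec := h.arec n
    set e : ℝ := a n - 1 with he
    have han : a n = 1 + e := by rw [he]; ring
    have hyn' : y n = n * e := rfl
    have e0 : 0 ≤ e := by have := (h.inv n).one_le; linarith
    have h1 : a (n + 1) - 1 ≤ e + e ^ 2 / 2 - t + t ^ 2 / 2 := by
      rw [hrec, han]
      nlinarith
    have h2 : y (n + 1) ≤ (n + 1) * (e + e ^ 2 / 2 - t + t ^ 2 / 2) := by
      rw [hy]
      simp only
      push_cast
      gcongr
    refine h2.trans ?_
    have hen : e = y n / n := by rw [hyn']; field_simp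
    rw [hen, ht]
    exact riccati_arith hn100 (hy0 n) hyn
  -- y stays below 6/5
  have hstart : y m ≤ 6 / 5 := by
    rw [hy]
    simp only
    have hmpos : (0:ℝ) < m := by
      have : (100:ℝ) ≤ m := by exact_mod_cast hm1
      linarith
    rw [lt_div_iff₀ hmpos] at hlt
    linarith
  have hall : ∀ j, y (m + j) ≤ 6 / 5 - ∑ i ∈ range j, (1 / 10) / ((m + i : ℕ) : ℝ) := by
    intro j
    induction j with
    | zero => simpa using hstart
    | succ j ih =>
      have hnn : 0 ≤ ∑ i ∈ range j, (1 / 10) / ((m + i : ℕ) : ℝ) :=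
        Finset.sum_nonneg (fun i _ => by positivity)
      have h1 := hstep (m + j) (by omega) (by linarith)
      rw [Finset.sum_range_succ]
      have : m + (j + 1) = m + j + 1 := by ring
      rw [this]
      linarith
  have hdiv : Tendsto (fun j => ∑ i ∈ range j, (1 / 10 : ℝ) / ((m + i : ℕ) : ℝ)) atTop atTop := by
    have h1 : ¬ Summable (fun i : ℕ => (1 / 10 : ℝ) / ((m + i : ℕ) : ℝ)) := by
      intro hs
      have h2 : Summable (fun i : ℕ => ((i + m : ℕ) : ℝ)⁻¹) := by
        refine (hs.mul_left 10).congr ?_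
        intro i
        rw [add_comm m i]
        ring
      have h3 := (summable_nat_add_iff (f := fun i : ℕ => ((i : ℕ) : ℝ)⁻¹) m).1 h2
      exact Real.not_summable_natCast_inv h3
    exact (not_summable_iff_tendsto_nat_atTop_of_nonneg (fun i => by positivity)).1 h1
  obtain ⟨j, hj⟩ := (hdiv.eventually_ge_atTop 2).exists
  have := hall j
  have := hy0 (m + j)
  linarith

/-- product lower bound -/
lemma prod_growth (h : Sys q a) {n1 : ℕ} (hn1 : ∀ n, n1 ≤ n → (6 / 5 : ℝ) / (n:ℝ) ≤ a n - 1) :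
    Tendsto (fun n : ℕ => (∏ i ∈ range n, a i) / (n : ℝ)) atTop atTop := by
  set m := max n1 1 with hm
  have hm1 : 1 ≤ m := le_max_right _ _
  have hmn : n1 ≤ m := le_max_left _ _
  have hmpos : (0:ℝ) < m := by exact_mod_cast hm1
  have ha1 : ∀ i, 1 ≤ a i := fun i => (h.inv i).one_le
  have hP1 : 1 ≤ ∏ i ∈ range m, a i := by
    have : ∏ i ∈ range m, (1:ℝ) ≤ ∏ i ∈ range m, a i :=
      Finset.prod_le_prod (fun _ _ => by norm_num) (fun i _ => ha1 i)
    simpa using this
  have hkey : ∀ j : ℕ, (1 / (m:ℝ)) * (1 + ∑ i ∈ range j, (1 / 5 : ℝ) / ((m + i : ℕ) + 1 : ℝ))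
      ≤ (∏ i ∈ range (m + j), a i) / ((m + j : ℕ) : ℝ) := by
    intro j
    induction j with
    | zero =>
      simp only [Finset.range_zero, Finset.sum_empty, add_zero, mul_one]
      gcongr
    | succ j ih =>
      rw [← Nat.add_assoc, Finset.prod_range_succ, Finset.sum_range_succ]
      set P := ∏ i ∈ range (m + j), a i with hP
      set S := ∑ i ∈ range j, (1 / 5 : ℝ) / ((m + i : ℕ) + 1 : ℝ) with hS
      set x : ℝ := ((m + j : ℕ) : ℝ) with hx
      have hxm : (m:ℝ) ≤ x := by rw [hx]; push_cast; linarith [(Nat.cast_nonneg j : (0:ℝ) ≤ (j:ℝ))]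
      have hx0 : 0 < x := by linarith
      have hS0 : 0 ≤ S := Finset.sum_nonneg (fun i _ => by positivity)
      have haj : 1 + (6 / 5) / x ≤ a (m + j) := by
        have := hn1 (m + j) (by omega)
        rw [← hx] at this
        linarith
      have hP0 : 0 ≤ P / x := le_trans (by positivity) ih
      have hPx : P = (P / x) * x := by field_simp
      have hratio : (1 + (6 / 5) / x) * x / (x + 1) = 1 + (1 / 5) / (x + 1) := by
        field_simp
        ring
      have hcast : ((m + j + 1 : ℕ) : ℝ) = x + 1 := by push_cast; rw [hx]; push_cast; ring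
      rw [hcast]
      have hPnn : 0 ≤ P := by rw [hPx]; positivity
      calc (1 / (m:ℝ)) * (1 + (S + (1 / 5) / (x + 1)))
          ≤ (1 / (m:ℝ)) * (1 + S) * (1 + (1 / 5) / (x + 1)) := by
            have h0 : 0 ≤ (1 / 5) / (x + 1) := by positivity
            have h2 : 1 + (S + (1 / 5) / (x + 1)) ≤ (1 + S) * (1 + (1 / 5) / (x + 1)) := by
              nlinarith [mul_nonneg hS0 h0]
            calc _ ≤ (1 / (m:ℝ)) * ((1 + S) * (1 + (1 / 5) / (x + 1))) := by gcongr
              _ = _ := by ring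
        _ ≤ (P / x) * (1 + (1 / 5) / (x + 1)) := by gcongr
        _ = (P / x) * ((1 + (6 / 5) / x) * x / (x + 1)) := by rw [hratio]
        _ = (P * (1 + (6 / 5) / x)) / (x + 1) := by field_simp
        _ ≤ (P * a (m + j)) / (x + 1) := by gcongr
  have hdiv : Tendsto (fun j => ∑ i ∈ range j, (1 / 5 : ℝ) / ((m + i : ℕ) + 1 : ℝ)) atTop atTop := by
    have h1 : ¬ Summable (fun i : ℕ => (1 / 5 : ℝ) / ((m + i : ℕ) + 1 : ℝ)) := by
      intro hs
      have h2 : Summable (fun i : ℕ => ((i + (m + 1) : ℕ) : ℝ)⁻¹) := by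
        refine (hs.mul_left 5).congr ?_
        intro i
        push_cast
        have : (i:ℝ) + (m + 1) = m + i + 1 := by ring
        rw [this]
        ring
      have h3 := (summable_nat_add_iff (f := fun i : ℕ => ((i : ℕ) : ℝ)⁻¹) (m + 1)).1 h2
      exact Real.not_summable_natCast_inv h3
    exact (not_summable_iff_tendsto_nat_atTop_of_nonneg (fun i => by positivity)).1 h1
  have h2 : Tendsto (fun j : ℕ => (∏ i ∈ range (m + j), a i) / ((m + j : ℕ) : ℝ)) atTop atTop := by
    refine tendsto_atTop_mono hkey ?_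
    refine Tendsto.const_mul_atTop (by positivity) ?_
    exact tendsto_atTop_add_const_left _ _ hdiv
  have h3 : Tendsto (fun j : ℕ => (∏ i ∈ range (j + m), a i) / ((j + m : ℕ) : ℝ)) atTop atTop := by
    refine h2.congr ?_
    intro j
    rw [add_comm]
  exact (tendsto_add_atTop_iff_nat (f := fun n : ℕ => (∏ i ∈ range n, a i) / ((n : ℕ) : ℝ)) m).1 h3

end Pool.Agent.H977_dr
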