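import Mathlib
import Pool.Agent.H977_dr.Jump

set_option autoImplicit false
open Filter Topology Finset

namespace Pool.Agent.H977_dr

noncomputable def w2 (k : ℕ) : ℝ := 1 / ((k : ℝ) + 1) ^ 2
noncomputable def w3 (k : ℕ) : ℝ := 1 / ((k : ℝ) + 1) ^ 3
noncomputable def l3 (k : ℕ) : ℝ := w3 k * (1 / 2) ^ (k + 1)

lemma w2_pos (k : ℕ) : 0 < w2 k := by unfold w2; positivity
lemma w3_pos (k : ℕ) : 0 < w3 k := by unfold w3; positivity
lemma l3_pos (k : ℕ) : 0 < l3 k := by unfold l3; have := w3_pos k; positivity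

lemma summable_w2 : Summable w2 := by
  have := (summable_nat_add_iff 1).2 (Real.summable_one_div_nat_pow.2 (one_lt_two))
  refine this.congr ?_
  intro n
  unfold w2
  push_cast
  rfl

lemma w3_le_w2 (k : ℕ) : w3 k ≤ w2 k := by
  unfold w2 w3
  have : (0:ℝ) ≤ k := Nat.cast_nonneg _
  apply one_div_le_one_div_of_le (by positivity)
  exact pow_le_pow_right₀ (by linarith) (by norm_num)

lemma summable_w3 : Summable w3 :=
  Summable.of_nonneg_of_le (fun k => (w3_pos k).le) w3_le_w2 summable_w2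

lemma l3_le_w3 (k : ℕ) : l3 k ≤ w3 k := by
  unfold l3
  have h1 : ((1:ℝ) / 2) ^ (k + 1) ≤ 1 := pow_le_one₀ (by norm_num) (by norm_num)
  have := w3_pos k
  nlinarith

lemma summable_l3 : Summable l3 :=
  Summable.of_nonneg_of_le (fun k => (l3_pos k).le) l3_le_w3 summable_w3

noncomputable def Z2 : ℝ := ∑' k, w2 k
noncomputable def Z3 : ℝ := ∑' k, w3 k
noncomputable def L3 : ℝ := ∑' k, l3 k

lemma Z3_lt_Z2 : Z3 < Z2 := by
  unfold Z3 Z2
  refine Summable.tsum_lt_tsum (i := 1) w3_le_w2 ?_ summable_w3 summable_w2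
  unfold w3 w2
  norm_num

lemma L3_pos : 0 < L3 := summable_l3.tsum_pos (fun k => (l3_pos k).le) 0 (l3_pos 0)

noncomputable def c0 : ℝ := 1 / (Z2 - Z3 + L3)

lemma den_pos : 0 < Z2 - Z3 + L3 := by
  have := Z3_lt_Z2
  have := L3_pos
  linarith

lemma c0_pos : 0 < c0 := by
  unfold c0
  have := den_pos
  positivity

lemma c0_eq : c0 * Z2 = c0 * Z3 + (1 - c0 * L3) := by
  have h := den_pos
  have : c0 * (Z2 - Z3 + L3) = 1 := by
    unfold c0
    field_simp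
  linarith

noncomputable def p0 : ℕ → ℝ
  | 0 => 1 - c0 * L3
  | (k + 1) => c0 * l3 k

lemma p0_zero_pos : 0 < p0 0 := by
  have h1 : p0 0 = 1 - c0 * L3 := rfl
  have h2 := c0_eq
  have h3 := Z3_lt_Z2
  have h4 := c0_pos
  rw [h1]
  nlinarith

lemma p0_inv : Inv p0 (c0 * Z2) := by
  have hc := c0_pos
  constructor
  · intro k
    cases k with
    | zero => exact p0_zero_pos.le
    | succ k => exact mul_nonneg hc.le (l3_pos k).le
  · have h1 : HasSum (fun k => p0 (k + 1)) (c0 * L3) := summable_l3.hasSum.mul_left c0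
    have h2 := (hasSum_nat_add_iff 1).1 h1
    have e : c0 * L3 + ∑ i ∈ range 1, p0 i = 1 := by
      simp [p0]
    rwa [e] at h2
  · have h1 : HasSum (fun k => p0 (k + 1) * 2 ^ (k + 1)) (c0 * Z3) := by
      refine (summable_w3.hasSum.mul_left c0).congr_fun ?_
      intro k
      show p0 (k + 1) * 2 ^ (k + 1) = c0 * w3 k
      simp only [p0, l3]
      have : ((1:ℝ) / 2) ^ (k + 1) * 2 ^ (k + 1) = 1 := by
        rw [← mul_pow]; norm_num
      calc c0 * (w3 k * (1 / 2) ^ (k + 1)) * 2 ^ (k + 1)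
          = c0 * w3 k * ((1 / 2) ^ (k + 1) * 2 ^ (k + 1)) := by ring
        _ = c0 * w3 k := by rw [this, mul_one]
    have h2 := (hasSum_nat_add_iff (f := fun k => p0 k * 2 ^ k) 1).1 h1
    have e : c0 * Z3 + ∑ i ∈ range 1, p0 i * 2 ^ i = c0 * Z2 := by
      rw [c0_eq]
      simp [p0]
    rwa [e] at h2
  · have h1 : HasSum (fun k : ℕ => ((k + 1 : ℕ) : ℝ) * (p0 (k + 1) * 2 ^ (k + 1))) (c0 * Z2) := by
      refine (summable_w2.hasSum.mul_left c0).congr_fun ?_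
      intro k
      show ((k + 1 : ℕ) : ℝ) * (p0 (k + 1) * 2 ^ (k + 1)) = c0 * w2 k
      simp only [p0, l3, w3, w2]
      have : ((1:ℝ) / 2) ^ (k + 1) * 2 ^ (k + 1) = 1 := by
        rw [← mul_pow]; norm_num
      calc ((k + 1 : ℕ) : ℝ) * (c0 * (1 / ((k:ℝ) + 1) ^ 3 * (1 / 2) ^ (k + 1)) * 2 ^ (k + 1))
          = ((k + 1 : ℕ) : ℝ) * (c0 * (1 / ((k:ℝ) + 1) ^ 3)) * ((1 / 2) ^ (k + 1) * 2 ^ (k + 1)) := by
            ring
        _ = c0 * (1 / ((k:ℝ) + 1) ^ 2) := by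
            rw [this, mul_one]
            push_cast
            field_simp
    have h2 := (hasSum_nat_add_iff (f := fun k : ℕ => (k : ℝ) * (p0 k * 2 ^ k)) 1).1 h1
    have e : c0 * Z2 + ∑ i ∈ range 1, (i : ℝ) * (p0 i * 2 ^ i) = c0 * Z2 := by
      simp
    rwa [e] at h2

noncomputable def qq : ℕ → ℕ → ℝ
  | 0 => p0
  | (n + 1) => pstep (qq n)

noncomputable def aa : ℕ → ℝ
  | 0 => c0 * Z2
  | (n + 1) => (aa n ^ 2 + qq n 0 ^ 2) / 2

lemma sys : Sys qq aa := by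
  refine ⟨?_, fun _ _ => rfl, fun _ => rfl⟩
  intro n
  induction n with
  | zero => exact p0_inv
  | succ n ih => exact ih.step

lemma tail_lower {n : ℕ} (hn : 1 ≤ n) {Q : ℝ}
    (hQ : HasSum (fun k => vv qq (2 * n) 0 k * 2 ^ k) Q) : c0 / (32 * (n:ℝ) ^ 2) ≤ Q := by
  have hc := c0_pos
  have hn0 : (0:ℝ) < n := by exact_mod_cast hn
  have h1 : ∑ k ∈ Finset.Ico (2 * n) (4 * n), c0 / (64 * (n:ℝ) ^ 3)
      ≤ ∑ k ∈ Finset.Ico (2 * n) (4 * n), vv qq (2 * n) 0 k * 2 ^ k := by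
    refine Finset.sum_le_sum ?_
    intro k hk
    rw [Finset.mem_Ico] at hk
    obtain ⟨j, rfl⟩ : ∃ j, k = j + 1 := ⟨k - 1, by omega⟩
    simp only [vv]
    rw [if_pos hk.1]
    show _ ≤ p0 (j + 1) * 2 ^ (j + 1)
    simp only [p0, l3, w3]
    have : ((1:ℝ) / 2) ^ (j + 1) * 2 ^ (j + 1) = 1 := by
      rw [← mul_pow]; norm_num
    have e : c0 * (1 / ((j:ℝ) + 1) ^ 3 * (1 / 2) ^ (j + 1)) * 2 ^ (j + 1) = c0 / ((j:ℝ) + 1) ^ 3 := by
      calc c0 * (1 / ((j:ℝ) + 1) ^ 3 * (1 / 2) ^ (j + 1)) * 2 ^ (j + 1)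
          = c0 * (1 / ((j:ℝ) + 1) ^ 3) * ((1 / 2) ^ (j + 1) * 2 ^ (j + 1)) := by ring
        _ = _ := by rw [this]; ring
    rw [e]
    apply div_le_div_of_nonneg_left hc.le (by positivity)
    have hj : (j:ℝ) + 1 ≤ 4 * n := by
      have : j + 1 ≤ 4 * n := by omega
      exact_mod_cast this
    calc ((j:ℝ) + 1) ^ 3 ≤ (4 * (n:ℝ)) ^ 3 := by gcongr
      _ = 64 * (n:ℝ) ^ 3 := by ring
  have h2 := sum_le_hasSum (Finset.Ico (2 * n) (4 * n)) (fun k _ => mul_nonneg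
    (vv_nonneg sys (2 * n) 0 k) (by positivity)) hQ
  have h3 : ∑ k ∈ Finset.Ico (2 * n) (4 * n), c0 / (64 * (n:ℝ) ^ 3) = c0 / (32 * (n:ℝ) ^ 2) := by
    rw [Finset.sum_const, Nat.card_Ico, nsmul_eq_mul]
    have : ((4 * n - 2 * n : ℕ) : ℝ) = 2 * n := by
      have : 4 * n - 2 * n = 2 * n := by omega
      rw [this]; push_cast; ring
    rw [this]
    field_simp
    ring
  linarith

lemma prod_upper {n : ℕ} (hn : 1 ≤ n) : (∏ i ∈ range n, aa i) / (n : ℝ) ≤ 64 / c0 := by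
  have hc := c0_pos
  have hn0 : (0:ℝ) < n := by exact_mod_cast hn
  have hsum : Summable (fun k => vv qq (2 * n) 0 k * 2 ^ k) := by
    refine Summable.of_nonneg_of_le (fun k => mul_nonneg
      (vv_nonneg sys (2 * n) 0 k) (by positivity)) ?_ (sys.inv 0).two.summable
    intro k
    have := (sys.inv 0).nonneg k
    have h2 : (0:ℝ) ≤ 2 ^ k := by positivity
    simp only [vv]
    split_ifs
    · exact le_rfl
    · rw [zero_mul]; positivity
  have h1 := jump_ineq sys (2 * n) hsum.hasSum n (by omega)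
  have h2 := tail_lower hn hsum.hasSum
  set Q := ∑' k, vv qq (2 * n) 0 k * 2 ^ k with hQ
  have hP : 0 ≤ ∏ i ∈ range n, aa i :=
    Finset.prod_nonneg (fun i _ => by linarith [(sys.inv i).one_le])
  have e : ((2 * n : ℕ) : ℝ) - n = n := by push_cast; ring
  rw [e] at h1
  have h3 : (n:ℝ) * (c0 / (32 * (n:ℝ) ^ 2) * ∏ i ∈ range n, aa i) ≤ 2 := by
    refine le_trans ?_ h1
    gcongr
  have h4 : (n:ℝ) * (c0 / (32 * (n:ℝ) ^ 2) * ∏ i ∈ range n, aa i)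
      = (c0 / 32) * ((∏ i ∈ range n, aa i) / n) := by
    field_simp
  rw [h4] at h3
  rw [le_div_iff₀ hc]
  linarith

/-- The asserted asymptotics fails at `s = 1/2`. -/
lemma no_conj (H : Tendsto
    (fun n : ℕ => ((∑' k : ℕ, qq n k * (1 / 2 : ℝ) ^ k) - 1) /
      (4 * ((2:ℕ) : ℝ) / ((((2:ℕ) : ℝ) - 1) ^ 2) * (((1 / 2 : ℝ) - 1) / (((2:ℕ) : ℝ) - (1 / 2 : ℝ)))
        / ((n : ℝ) ^ 2))) atTop (𝓝 1)) : False := by
  have h1 : ∀ᶠ n : ℕ in atTop, (15 / 16 : ℝ) < ((∑' k : ℕ, qq n k * (1 / 2 : ℝ) ^ k) - 1) /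
      (4 * ((2:ℕ) : ℝ) / ((((2:ℕ) : ℝ) - 1) ^ 2) * (((1 / 2 : ℝ) - 1) / (((2:ℕ) : ℝ) - (1 / 2 : ℝ)))
        / ((n : ℝ) ^ 2)) := H.eventually (lt_mem_nhds (by norm_num))
  obtain ⟨n0, hn0⟩ := (h1.and (eventually_ge_atTop 1)).exists_forall_of_atTop
  have hq : ∀ n, n0 ≤ n → (5 / 2 : ℝ) / (n:ℝ) ^ 2 ≤ 1 - qq n 0 := by
    intro n hn
    obtain ⟨h2, h3⟩ := hn0 n hn
    have hnpos : (0:ℝ) < n := by exact_mod_cast h3
    have e : (4 * ((2:ℕ) : ℝ) / ((((2:ℕ) : ℝ) - 1) ^ 2) * (((1 / 2 : ℝ) - 1) / (((2:ℕ) : ℝ) - (1 / 2 : ℝ)))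
        / ((n : ℝ) ^ 2)) = -((8 / 3) / (n:ℝ) ^ 2) := by
      push_cast
      field_simp
      norm_num
    rw [e, div_neg, ← neg_div, lt_div_iff₀ (by positivity)] at h2
    have hs : Summable (fun k : ℕ => qq n k * (1 / 2 : ℝ) ^ k) := by
      refine Summable.of_nonneg_of_le (fun k => mul_nonneg ((sys.inv n).nonneg k) (by positivity))
        ?_ (sys.inv n).one.summable
      intro k
      have h4 : ((1:ℝ) / 2) ^ k ≤ 1 := pow_le_one₀ (by norm_num) (by norm_num)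
      have := (sys.inv n).nonneg k
      nlinarith
    have h5 : qq n 0 ≤ ∑' k : ℕ, qq n k * (1 / 2 : ℝ) ^ k := by
      have := hs.le_tsum 0 (fun k _ => mul_nonneg ((sys.inv n).nonneg k) (by positivity))
      simpa using this
    have h6 : (15 / 16 : ℝ) * ((8 / 3) / (n:ℝ) ^ 2) = (5 / 2) / (n:ℝ) ^ 2 := by ring
    rw [h6] at h2
    linarith
  obtain ⟨n1, hn1⟩ := riccati sys hq
  have h7 := prod_growth sys hn1
  obtain ⟨n, hn, hn'⟩ := ((h7.eventually_gt_atTop (64 / c0)).and (eventually_ge_atTop 1)).exists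
  have := prod_upper hn'
  linarith

end Pool.Agent.H977_dr
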